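import Pool.Agent.Helper70.KN.FON

/-! FOL: out-closed sets near the left side have probability tending to zero. -/

open MeasureTheory Set Filter Topology
open scoped ENNReal

namespace KN

theorem eventually_lam_le {C : ℝ} (hC : 0 < C) : ∀ᶠ n in atTop, C * lam n ≤ Real.sqrt n := by
  have h1 := Real.isLittleO_log_id_atTop.def (c := (C ^ 2)⁻¹) (by positivity)
  filter_upwards [h1, eventually_ge_atTop (Real.exp 1)] with n hn hn1
  have hn0 : 0 < n := lt_of_lt_of_le (Real.exp_pos 1) hn1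
  have hlog : 0 ≤ Real.log n := by
    apply Real.log_nonneg
    have := Real.add_one_le_exp (1 : ℝ)
    linarith
  rw [Real.norm_of_nonneg hlog, id, Real.norm_of_nonneg hn0.le] at hn
  unfold lam
  rw [← Real.sqrt_sq hC.le, ← Real.sqrt_mul (by positivity)]
  apply Real.sqrt_le_sqrt
  have hC2 : 0 < C ^ 2 := by positivity
  calc C ^ 2 * Real.log n ≤ C ^ 2 * ((C ^ 2)⁻¹ * n) := mul_le_mul_of_nonneg_left hn hC2.le
    _ = n := by field_simp

theorem FOL_thm (hCOL : S_COL) (hOLE : S_OLE) (hLUNE : S_LUNE) (hNUM : S_NUM) (hB : S_BASIC) :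
    S_FOL := by
  classical
  intro c a D d hc ha hD hd hcf
  obtain ⟨hl1, hl2, -⟩ := hLUNE
  obtain ⟨-, -, -, -, hq⟩ := hNUM lune hl1 hl2
  have hqlog : 1 / 2 < c * Real.log (12 / 5) := by
    have h1 : c * f0 < c * (2 * Real.log (12 / 5)) := by
      unfold f0
      exact mul_lt_mul_of_pos_left hq hc
    linarith
  set ε₁ : ℝ := a / 20000 with hε₁
  have hε₁0 : 0 < ε₁ := by positivity
  set N : ℕ := ⌈(D + d + 10 * ε₁) / ε₁⌉₊ with hN
  have hNle : D + d + 10 * ε₁ ≤ N * ε₁ := by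
    have h1 := Nat.le_ceil ((D + d + 10 * ε₁) / ε₁)
    rwa [div_le_iff₀ hε₁0] at h1
  refine ⟨D + 2 * d + 20 * ε₁, by positivity, ?_⟩
  intro C' hC'
  have hC'0 : 0 < C' := lt_of_lt_of_le (by positivity) hC'
  by_cases had : a ≤ d
  swap
  · -- impossible event
    refine tendsto_const_nhds.congr' ?_
    filter_upwards [eventually_ge_atTop (Real.exp 1)] with n hn
    have hlam : 1 ≤ lam n := lam_ge_one hn
    rw [PP_eq_zero_of_false hB (measurableSet_Sq n)]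
    rintro ω ⟨B, P, -, hO, v, hv, -⟩
    have h1 := outI_le hO hv
    have h2 : a ≤ d := by
      by_contra hcon
      rw [not_le] at hcon
      nlinarith
    exact had h2
  set K : ℝ := (2 * C' / ε₁ + 1) * (1 / ε₁ + 1) *
    (((2 * N + 1) * (2 * N + 1) : ℕ) ^ 2 * ((N + 1 : ℕ) * 2)) with hK
  have hK0 : 0 ≤ K := by positivity
  have hlim := asymp (c := c) (q := 12 / 5) (e := 1 / 2) (K := K) (by norm_num) hqlog hK0
  refine tendsto_of_tendsto_of_tendsto_of_le_of_le' tendsto_const_nhds hlim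
    (Eventually.of_forall fun _ => bot_le) ?_
  filter_upwards [eventually_ge_atTop (Real.exp 1),
    eventually_lam_le (C := 8 * C') (by positivity)] with n hn hn8
  have hlam : 1 ≤ lam n := lam_ge_one hn
  have hlam0 : 0 < lam n := by linarith
  have hn1 : 1 ≤ n := by
    have := Real.add_one_le_exp (1 : ℝ)
    linarith
  have hn0 : 0 < n := by linarith
  set ε : ℝ := ε₁ * lam n with hε
  have hε0 : 0 < ε := by positivity
  -- index set
  let F : ℤ × ℤ → Finset ((ℤ × ℤ) × (ℤ × ℤ) × ℕ × Fin 2) := fun c₀ =>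
    nb N c₀ ×ˢ nb N c₀ ×ˢ Finset.range (N + 1) ×ˢ Finset.univ
  let I : Finset ((ℤ × ℤ) × (ℤ × ℤ) × ℕ × Fin 2) := (gridL n ε (2 * (C' * lam n))).biUnion F
  let R : ((ℤ × ℤ) × (ℤ × ℤ) × ℕ × Fin 2) → Multiset ℂ → Prop := fun t ω =>
    (10000 ≤ t.2.2.1 ∧ 0 ≤ t.1.1 ∧ 0 ≤ t.2.1.1 ∧
      (t.2.1.2 : ℝ) * ε ≤ (t.1.2 + 1) * ε ∧
      oUl ε (((t.2.2.1 : ℕ) : ℝ) * ε - 2 * ε) t.1 t.2.1 ⊆ Sq n) ∧
    (cnt (oUl ε (((t.2.2.1 : ℕ) : ℝ) * ε - 2 * ε) t.1 t.2.1) ω = 0 ∧
      kn c n ≤ cnt ({z : ℂ | 0 ≤ z.re ∧ t.2.1.2 * ε ≤ z.im ∧ z.im ≤ (t.1.2 + 1) * ε} ∩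
        Metric.ball (![ptc ε t.1, llc ε t.2.1] t.2.2.2) ((((t.2.2.1 : ℕ) : ℝ) + 3) * ε)) ω)
  have hcov : ∀ ω : Multiset ℂ, (∀ z ∈ ω, z ∈ Sq n) →
      BadOle (kn c n) n (a * lam n) (D * lam n) (d * lam n) (2 * (C' * lam n)) ω →
      ∃ i ∈ I, R i ω := by
    intro ω hω hbad
    obtain ⟨c₀, hc₀, ct, hct, cb, hcb, j, hj, hj1, h1, h2, h3, h5, i, -,
      h6, h7⟩ := hCOL (kn c n) n (a * lam n) (D * lam n) (d * lam n) ε (C' * lam n) N ω hn0
        (by positivity) (by gcongr) hε0 (by rw [hε, hε₁]; nlinarith)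
        (by rw [hε]; nlinarith) (by rw [hε]; nlinarith) (by rw [← mul_assoc]; exact hn8) hω hbad
    refine ⟨(ct, cb, j, i), ?_, ?_⟩
    · refine Finset.mem_biUnion.2 ⟨c₀, hc₀, ?_⟩
      simp only [F, Finset.mem_product]
      exact ⟨hct, hcb, hj, Finset.mem_univ _⟩
    · have e1 : ((j : ℝ) - 2) * ε = (j : ℝ) * ε - 2 * ε := by ring
      rw [e1] at h5 h6
      exact ⟨⟨hj1, h1, h2, h3, h5⟩, h6, h7⟩
  have hbound : ∀ i ∈ I, PP (Sq n) (R i) ≤ ENNReal.ofReal ((5 / 12) ^ kn c n) := by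
    rintro ⟨ct, cb, j, i⟩ -
    refine PP_le_of_imp hB (measurableSet_Sq n) _ _ _ ?_
    rintro ⟨hj1, h1, h2, h3, h5⟩
    have e1 : ((j : ℝ) - 2) * ε = (j : ℝ) * ε - 2 * ε := by ring
    have h1' : (0 : ℝ) ≤ (ct.1 : ℝ) := by exact_mod_cast h1
    have h2' : (0 : ℝ) ≤ (cb.1 : ℝ) := by exact_mod_cast h2
    have := hOLE (kn c n) n ε j (cb.2 * ε) ((ct.2 + 1) * ε)
      (ptc ε ct) (llc ε cb)
      (![ptc ε ct, llc ε cb] i) hn0 hε0 hj1 (mul_nonneg h1' hε0.le) (mul_nonneg h2' hε0.le)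
      rfl rfl h3
      (by fin_cases i <;> simp) (by rw [e1]; exact h5)
    rw [e1] at this
    exact this
  have hU := union_bound hB (measurableSet_Sq n) I _ R _ hcov hbound
  refine hU.trans ?_
  have hcardI : (I.card : ℝ) ≤ K * n ^ (1 / 2 : ℝ) := by
    have h1 : I.card ≤ (gridL n ε (2 * (C' * lam n))).card *
        (((2 * N + 1) * (2 * N + 1)) ^ 2 * ((N + 1) * 2)) := by
      refine Finset.card_biUnion_le_card_mul _ _ _ (fun c₀ _ => ?_)
      simp only [F, Finset.card_product, card_nb, Finset.card_range, Finset.card_univ,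
        Fintype.card_fin]
      apply le_of_eq
      ring
    have hx : Real.sqrt n / ε ≤ (1 / ε₁) * Real.sqrt n := by
      rw [hε, div_le_iff₀ (by positivity)]
      have : 1 / ε₁ * Real.sqrt n * (ε₁ * lam n) = Real.sqrt n * lam n := by
        field_simp
      rw [this]
      have := Real.sqrt_nonneg n
      nlinarith
    have hs1 : 1 ≤ Real.sqrt n := by
      rw [Real.one_le_sqrt]; exact hn1
    have h2 : ((gridL n ε (2 * (C' * lam n))).card : ℝ) ≤
        (2 * C' / ε₁ + 1) * (1 / ε₁ + 1) * Real.sqrt n := by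
      unfold gridL
      rw [Finset.card_product]
      push_cast
      have h3 := card_Icc_floor (t := Real.sqrt n / ε) (by positivity)
      have h4 : ((Finset.Icc (0 : ℤ) ⌊Real.sqrt n / ε⌋).card : ℝ) ≤
          (1 / ε₁ + 1) * Real.sqrt n := by nlinarith
      have h5 := card_Icc_floor (t := 2 * (C' * lam n) / ε) (by positivity)
      have h6 : 2 * (C' * lam n) / ε = 2 * C' / ε₁ := by
        rw [hε]
        field_simp
      rw [h6] at h5 ⊢
      calc ((Finset.Icc (0 : ℤ) ⌊2 * C' / ε₁⌋).card : ℝ) *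
            ((Finset.Icc (0 : ℤ) ⌊Real.sqrt n / ε⌋).card : ℝ)
          ≤ (2 * C' / ε₁ + 1) * ((1 / ε₁ + 1) * Real.sqrt n) := by
            apply mul_le_mul h5 h4 (by positivity) (by positivity)
        _ = (2 * C' / ε₁ + 1) * (1 / ε₁ + 1) * Real.sqrt n := by ring
    have hsq : n ^ (1 / 2 : ℝ) = Real.sqrt n := (Real.sqrt_eq_rpow n).symm
    rw [hsq]
    calc (I.card : ℝ) ≤ ((gridL n ε (2 * (C' * lam n))).card : ℝ) *
          ((((2 * N + 1) * (2 * N + 1)) ^ 2 * ((N + 1) * 2) : ℕ) : ℝ) := by exact_mod_cast h1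
      _ ≤ ((2 * C' / ε₁ + 1) * (1 / ε₁ + 1) * Real.sqrt n) *
          ((((2 * N + 1) * (2 * N + 1)) ^ 2 * ((N + 1) * 2) : ℕ) : ℝ) := by
          apply mul_le_mul_of_nonneg_right h2 (by positivity)
      _ = K * Real.sqrt n := by
          rw [hK]
          push_cast
          ring
  have e2 : (I.card : ℝ≥0∞) = ENNReal.ofReal (I.card : ℝ) := by
    rw [ENNReal.ofReal_natCast]
  rw [e2, ← ENNReal.ofReal_mul (by positivity)]
  apply ENNReal.ofReal_le_ofReal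
  have e3 : (1 / (12 / 5 : ℝ)) = 5 / 12 := by norm_num
  rw [e3]
  exact mul_le_mul_of_nonneg_right hcardI (by positivity)

end KN
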