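import Pool.Agent.Helper89.KN.Spec
import Pool.Agent.Helper89.KN.Base

/-! Common lemmas for the limits (union bound, asymptotics). -/

open MeasureTheory Set Filter Topology
open scoped ENNReal

namespace KN

theorem measurableSet_Sq (n : ℝ) : MeasurableSet (Sq n) := by
  have h1 : Sq n = Complex.re ⁻¹' Icc 0 (Real.sqrt n) ∩ Complex.im ⁻¹' Icc 0 (Real.sqrt n) := by
    ext z
    simp only [Sq, SqL, mem_ofPred_eq, mem_inter_iff, mem_preimage, mem_Icc]
    tauto
  rw [h1]
  exact (measurableSet_Icc.preimage Complex.measurable_re).inter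
    (measurableSet_Icc.preimage Complex.measurable_im)

/-- union bound -/
theorem union_bound (hB : S_BASIC) {S : Set ℂ} (hS : MeasurableSet S) {ι : Type} (I : Finset ι)
    (Q : Multiset ℂ → Prop) (R : ι → Multiset ℂ → Prop) (b : ℝ≥0∞)
    (h : ∀ ω, (∀ z ∈ ω, z ∈ S) → Q ω → ∃ i ∈ I, R i ω) (hb : ∀ i ∈ I, PP S (R i) ≤ b) :
    PP S Q ≤ I.card * b := by
  obtain ⟨h1, -, h3, -, -⟩ := hB
  calc PP S Q ≤ prob S (fun m x => ∃ i ∈ I, R i (conf x)) := by
        refine h1 S _ _ hS (fun m x hx hQ => ?_)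
        refine h _ (fun z hz => ?_) hQ
        obtain ⟨i, rfl⟩ := mem_conf.1 hz
        exact hx i
    _ ≤ ∑ i ∈ I, prob S (fun m x => R i (conf x)) := h3 S ι I (fun i m x => R i (conf x))
    _ ≤ ∑ i ∈ I, b := Finset.sum_le_sum hb
    _ = I.card * b := by rw [Finset.sum_const, nsmul_eq_mul]

/-- an impossible event has probability zero -/
theorem PP_le_of_imp (hB : S_BASIC) {S : Set ℂ} (hS : MeasurableSet S) (C : Prop)
    (R : Multiset ℂ → Prop) (b : ℝ≥0∞) (h : C → PP S R ≤ b) : PP S (fun ω => C ∧ R ω) ≤ b := by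
  by_cases hC : C
  · refine le_trans ?_ (h hC)
    exact hB.1 S _ _ hS (fun m x _ hQ => hQ.2)
  · have h0 : PP S (fun ω => C ∧ R ω) ≤ (∅ : Finset ℕ).card * b := by
      refine union_bound hB hS ∅ _ (fun _ _ => True) b (fun ω _ hQ => absurd hQ.1 hC) (by simp)
    simp only [Finset.card_empty, Nat.cast_zero, zero_mul, nonpos_iff_eq_zero] at h0
    rw [h0]
    exact bot_le

theorem card_Icc_floor {t : ℝ} (ht : 0 ≤ t) : ((Finset.Icc (0 : ℤ) ⌊t⌋).card : ℝ) ≤ t + 1 := by
  rw [Int.card_Icc]
  have h0 : 0 ≤ ⌊t⌋ := Int.floor_nonneg.2 ht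
  have h1 : (((⌊t⌋ + 1 - 0).toNat : ℤ) : ℝ) = (⌊t⌋ : ℝ) + 1 := by
    rw [Int.toNat_of_nonneg (by omega)]
    push_cast
    ring
  have h2 : ((⌊t⌋ + 1 - 0).toNat : ℝ) = (⌊t⌋ : ℝ) + 1 := by exact_mod_cast h1
  rw [h2]
  have := Int.floor_le t
  linarith

theorem card_nb (N : ℕ) (c : ℤ × ℤ) : (nb N c).card = (2 * N + 1) * (2 * N + 1) := by
  unfold nb
  rw [Finset.card_product, Int.card_Icc, Int.card_Icc]
  have h1 : (c.1 + (N : ℤ) + 1 - (c.1 - N)).toNat = 2 * N + 1 := by
    have : c.1 + (N : ℤ) + 1 - (c.1 - N) = ((2 * N + 1 : ℕ) : ℤ) := by push_cast; ring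
    rw [this, Int.toNat_natCast]
  have h2 : (c.2 + (N : ℤ) + 1 - (c.2 - N)).toNat = 2 * N + 1 := by
    have : c.2 + (N : ℤ) + 1 - (c.2 - N) = ((2 * N + 1 : ℕ) : ℤ) := by push_cast; ring
    rw [this, Int.toNat_natCast]
  rw [h1, h2]

/-- the number of positions times the exponentially small probability tends to zero -/
theorem asymp {c q e K : ℝ} (hq : 1 < q) (he : e < c * Real.log q) (hK : 0 ≤ K) :
    Tendsto (fun n => ENNReal.ofReal (K * n ^ e * (1 / q) ^ kn c n)) atTop (𝓝 0) := by
  have hq0 : 0 < q := by linarith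
  have hlim : Tendsto (fun n : ℝ => K * q * n ^ (-(c * Real.log q - e))) atTop (𝓝 0) := by
    have := (tendsto_rpow_neg_atTop (y := c * Real.log q - e) (by linarith)).const_mul (K * q)
    rwa [mul_zero] at this
  have h2 : Tendsto (fun n => K * n ^ e * (1 / q) ^ kn c n) atTop (𝓝 0) := by
    refine tendsto_of_tendsto_of_tendsto_of_le_of_le' tendsto_const_nhds hlim ?_ ?_
    · filter_upwards [eventually_ge_atTop (0 : ℝ)] with n hn
      have := Real.rpow_nonneg hn e
      positivity
    · filter_upwards [eventually_ge_atTop (1 : ℝ)] with n hn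
      have hn0 : 0 < n := by linarith
      have h3 : (1 / q) ^ kn c n ≤ q * n ^ (-(c * Real.log q)) := by
        have h4 : c * Real.log n - 1 < (kn c n : ℝ) := by
          unfold kn
          have := Nat.lt_floor_add_one (c * Real.log n)
          linarith
        have h5 : (1 / q) ^ kn c n = Real.exp (-((kn c n : ℝ) * Real.log q)) := by
          rw [one_div, inv_pow, Real.exp_neg]
          congr 1
          rw [← Real.exp_log hq0, ← Real.exp_nat_mul, Real.log_exp]
        have h6 : q * n ^ (-(c * Real.log q)) =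
            Real.exp (Real.log q + Real.log n * (-(c * Real.log q))) := by
          rw [Real.exp_add, Real.exp_log hq0, Real.rpow_def_of_pos hn0]
        rw [h5, h6]
        apply Real.exp_le_exp.2
        have h7 : 0 < Real.log q := Real.log_pos hq
        nlinarith
      have h8 : n ^ (-(c * Real.log q - e)) = n ^ e * n ^ (-(c * Real.log q)) := by
        rw [← Real.rpow_add hn0]
        congr 1
        ring
      rw [h8]
      have h9 : 0 ≤ n ^ e := Real.rpow_nonneg hn0.le e
      calc K * n ^ e * (1 / q) ^ kn c n ≤ K * n ^ e * (q * n ^ (-(c * Real.log q))) := by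
            apply mul_le_mul_of_nonneg_left h3
            positivity
        _ = K * q * (n ^ e * n ^ (-(c * Real.log q))) := by ring
  have := (ENNReal.continuous_ofReal.tendsto 0).comp h2
  rwa [ENNReal.ofReal_zero] at this

theorem lam_ge_one {n : ℝ} (hn : Real.exp 1 ≤ n) : 1 ≤ lam n := by
  unfold lam
  rw [Real.one_le_sqrt, ← Real.log_exp 1]
  exact Real.log_le_log (Real.exp_pos 1) hn

end KN
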